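import Pool.Agent.Lib.MP_42e615_an.Hedge

set_option autoImplicit false

open Pool.Agent.Lib.MP_42e615_an

namespace Pool.Agent.Results.MP_42e615_an.AxisRay

/-- The upper part of the phase-lock area meets its axis exactly in the ray above the highest
simple intersection. -/
theorem result (ω : ℝ) (hω : 0 < ω) (r : ℤ) (hr : r ≠ 0) : ∃ a : ℝ,
    IsGreatest {A : ℝ | (r * ω, A) ∈ frontier (lockArea ω r) ∧
      ¬ IsConstriction (lockArea ω r) (r * ω, A)} a ∧
    ∀ A : ℝ, 0 ≤ A → (HasRotationNumber ω (r * ω) A r ↔ a ≤ A) :=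
  hedge hω hr

end Pool.Agent.Results.MP_42e615_an.AxisRay
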